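import Pool.Agent.H11_Derange.Circ

open Equiv Finset

namespace Pool.Agent.Results.MP_cc6741_nt.EvenDerangementSum

open H11.Derange

/-- the sum over derangements `τ` of `{1,…,n}` (indexed by `Fin n`, `j ↔ j+1`; only the
differences `j - τ(j)` enter) of `∏ 1/(1-ζ^(j-τ(j)))`. -/
noncomputable def derangementSum (n : ℕ) (ζ : ℂ) : ℂ :=
  ∑ τ ∈ (Finset.univ : Finset (Perm (Fin n))).filter (fun τ => ∀ j, τ j ≠ j),
    ∏ j : Fin n, 1 / (1 - ζ ^ ((j : ℤ) - ((τ j : Fin n) : ℤ)))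

theorem prod_half (m : ℕ) :
    ∏ s ∈ range (2 * m), ((((2 * m : ℕ) : ℂ) - 1) / 2 - s)
      = (-1) ^ m * (((2 * m - 1).doubleFactorial : ℂ)) ^ 2 / 2 ^ (2 * m) := by
  have h1 : ∏ s ∈ range (2 * m), ((((2 * m : ℕ) : ℂ) - 1) / 2 - s)
      = (∏ s ∈ range (2 * m), (2 * (m : ℂ) - 1 - 2 * s)) / 2 ^ (2 * m) := by
    have : (2 : ℂ) ^ (2 * m) = ∏ s ∈ range (2 * m), (2 : ℂ) := by simp
    rw [this, ← Finset.prod_div_distrib]
    refine Finset.prod_congr rfl (fun s _ => ?_)
    push_cast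
    ring
  rw [h1]
  congr 1
  induction m with
  | zero => simp
  | succ m ih =>
    have e1 : 2 * (m + 1) = 2 * m + 1 + 1 := by ring
    rw [e1, Finset.prod_range_succ', Finset.prod_range_succ]
    have e2 : ∏ k ∈ range (2 * m), (2 * ((m + 1 : ℕ) : ℂ) - 1 - 2 * ((k + 1 : ℕ) : ℂ))
        = ∏ s ∈ range (2 * m), (2 * (m : ℂ) - 1 - 2 * s) := by
      refine Finset.prod_congr rfl (fun s _ => ?_)
      push_cast
      ring
    rw [e2, ih (by
      have : (2 : ℂ) ^ (2 * m) = ∏ s ∈ range (2 * m), (2 : ℂ) := by simp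
      rw [this, ← Finset.prod_div_distrib]
      refine Finset.prod_congr rfl (fun s _ => ?_)
      push_cast
      ring)]
    have e3 : (2 * m + 1 + 1 - 1) = (2 * m + 1) := by omega
    rw [e3]
    have e4 : (2 * m + 1).doubleFactorial = (2 * m + 1) * (2 * m - 1).doubleFactorial := by
      rcases m with _ | m
      · simp
      · have : 2 * (m + 1) + 1 = (2 * m + 1) + 2 := by ring
        rw [this, Nat.doubleFactorial_add_two]
        have : 2 * (m + 1) - 1 = 2 * m + 1 := by omega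
        rw [this]
    rw [e4]
    push_cast
    ring

theorem second_eq (m : ℕ) :
    (((2 * m - 1).doubleFactorial : ℂ)) ^ 2 / 2 ^ (2 * m)
      = ((2 * m).factorial : ℂ) / 4 ^ (2 * m) * ((2 * m).choose m : ℂ) := by
  have h1 : (2 * m).factorial = (2 * m).doubleFactorial * (2 * m - 1).doubleFactorial := by
    rcases m with _ | m
    · simp
    · have : 2 * (m + 1) = (2 * m + 1) + 1 := by ring
      rw [this, Nat.factorial_eq_mul_doubleFactorial]
      simp
  have h2 : (2 * m).doubleFactorial = 2 ^ m * m.factorial := Nat.doubleFactorial_two_mul m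
  have h3 : (2 * m).choose m * m.factorial * m.factorial = (2 * m).factorial := by
    have := Nat.choose_mul_factorial_mul_factorial (n := 2 * m) (k := m) (by omega)
    rwa [show 2 * m - m = m by omega] at this
  have hm : (m.factorial : ℂ) ≠ 0 := by exact_mod_cast Nat.factorial_ne_zero m
  have h1' : ((2 * m).factorial : ℂ) = 2 ^ m * m.factorial * (2 * m - 1).doubleFactorial := by
    rw [h1, h2]; push_cast; ring
  have h3' : ((2 * m).choose m : ℂ) * m.factorial * m.factorial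
      = 2 ^ m * m.factorial * (2 * m - 1).doubleFactorial := by
    rw [← h1']; exact_mod_cast h3
  have h4 : ((2 * m).choose m : ℂ) * m.factorial = 2 ^ m * (2 * m - 1).doubleFactorial := by
    apply mul_right_cancel₀ hm
    rw [h3']; ring
  have h5 : (4 : ℂ) ^ (2 * m) = 2 ^ (2 * m) * (2 ^ m * 2 ^ m) := by
    rw [show (4 : ℂ) = 2 * 2 by norm_num, mul_pow, ← pow_add]
    ring
  rw [h1', h5]
  have h6 : ((2 * m - 1).doubleFactorial : ℂ) * 2 ^ m = ((2 * m).choose m : ℂ) * m.factorial := by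
    rw [h4]; ring
  have h20 : ∀ k : ℕ, (2 : ℂ) ^ k ≠ 0 := fun k => pow_ne_zero _ two_ne_zero
  rw [div_mul_eq_mul_div, div_eq_div_iff (h20 _) (mul_ne_zero (h20 _) (mul_ne_zero (h20 _) (h20 _)))]
  have h7 : 2 ^ m * (m.factorial : ℂ) * ((2 * m - 1).doubleFactorial : ℂ) * ((2 * m).choose m : ℂ)
      = (2 ^ m * ((2 * m - 1).doubleFactorial : ℂ)) * (((2 * m).choose m : ℂ) * m.factorial) := by
    ring
  rw [h7, h4]
  ring

/-- **Result.** For every even `n > 1` and every primitive `n`-th root of unity `ζ`, the sum over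
all derangements `τ` of `∏ 1/(1-ζ^(j-τ(j)))` equals `((n-1)!!)²/2^n`, and this number equals
`(n!/4^n)·C(n,n/2)`. -/
theorem result : ∀ n : ℕ, 1 < n → Even n → ∀ ζ : ℂ, IsPrimitiveRoot ζ n →
    derangementSum n ζ = ((n - 1).doubleFactorial : ℂ) ^ 2 / 2 ^ n ∧
    ((n - 1).doubleFactorial : ℂ) ^ 2 / 2 ^ n
      = (n.factorial : ℂ) / 4 ^ n * (n.choose (n / 2) : ℂ) := by
  intro n hn1 hne ζ h
  obtain ⟨m, hm⟩ := hne
  have hm2 : n = 2 * m := by omega
  have hn : 0 < n := by omega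
  have hζ : ζ ≠ 0 := h.ne_zero hn.ne'
  refine ⟨?_, ?_⟩
  swap
  · subst hm2
    rw [show 2 * m / 2 = m by omega]
    exact second_eq m
  set x : Fin n → ℂ := fun j => ζ ^ (j : ℕ) with hx
  have hxi : Function.Injective x := by
    intro a b hab
    exact Fin.ext (h.pow_inj a.2 b.2 hab)
  -- entries
  have hBW : ∀ j k : Fin n, B n ζ j k = x k * W x j k := by
    intro j k
    simp only [B, Matrix.of_apply, W, hx]
    by_cases hjk : j = k
    · rw [if_pos hjk, if_pos hjk, mul_zero]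
    · rw [if_neg hjk, if_neg hjk]
      have e1 : 1 - ζ ^ ((j : ℤ) - (k : ℤ)) ≠ 0 := sub_ne_zero.2 (Ne.symm (zpow_ne h hjk))
      have e2 : ζ ^ ((j : ℤ) - (k : ℤ)) * ζ ^ (k:ℕ) = ζ ^ (j:ℕ) := by
        rw [← zpow_natCast ζ k, ← zpow_add₀ hζ, sub_add_cancel, zpow_natCast]
      have e3 : ζ ^ (k:ℕ) ≠ 0 := pow_ne_zero _ hζ
      have e4 : ζ ^ (k:ℕ) - ζ ^ (j:ℕ) = ζ ^ (k:ℕ) * (1 - ζ ^ ((j : ℤ) - (k : ℤ))) := by
        rw [← e2]; ring
      rw [e4]
      field_simp
  have hprod : ∀ τ : Perm (Fin n), ∏ j, B n ζ j (τ j) = (∏ j, x j) * ∏ j, W x j (τ j) := by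
    intro τ
    rw [Finset.prod_congr rfl (fun j _ => hBW j (τ j)), Finset.prod_mul_distrib]
    congr 1
    exact Equiv.prod_comp τ x
  -- the sum as `F`
  have hS : derangementSum n ζ = (∏ j, x j) * F (1 : ℤˣ →* ℂ) x := by
    unfold derangementSum F
    rw [Finset.sum_filter, Finset.mul_sum]
    refine Finset.sum_congr rfl (fun τ _ => ?_)
    rw [MonoidHom.one_apply, one_mul, ← hprod]
    split_ifs with hτ
    · refine Finset.prod_congr rfl (fun j _ => ?_)
      simp only [B, Matrix.of_apply]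
      rw [if_neg (fun h' => hτ j h'.symm)]
    · symm
      push Not at hτ
      obtain ⟨j, hj⟩ := hτ
      apply Finset.prod_eq_zero (Finset.mem_univ j)
      simp [B, hj]
  set g' : ℤˣ →* ℂ := ((Int.castRingHom ℂ : ℤ →+* ℂ) : ℤ →* ℂ).comp (Units.coeHom ℤ) with hg'
  have hdet : (B n ζ).det = (∏ j, x j) * F g' x := by
    rw [← Matrix.det_transpose, Matrix.det_apply']
    unfold F
    rw [Finset.mul_sum]
    refine Finset.sum_congr rfl (fun τ _ => ?_)
    simp only [Matrix.transpose_apply]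
    rw [hprod]
    simp [hg']
    ring
  have hFF : F (1 : ℤˣ →* ℂ) x = (-1) ^ m * F g' x := by
    apply F_even _ _ (by simp) (by simp [hg']) m x hxi
    rw [Fintype.card_fin, hm2]
  rw [hS, hFF]
  have h1 : (∏ j, x j) * ((-1) ^ m * F g' x) = (-1) ^ m * (B n ζ).det := by
    rw [hdet]; ring
  rw [h1, det_B hn h]
  subst hm2
  rw [prod_half m]
  have h2 : ((-1 : ℂ)) ^ m * (-1) ^ m = 1 := by
    rw [← mul_pow]; simp
  rw [← mul_div_assoc, ← mul_assoc, h2, one_mul]

end Pool.Agent.Results.MP_cc6741_nt.EvenDerangementSum
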